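import Pool.Agent.Results.MP_77d3f5_ag.AllDirections
import Pool.Agent.Helper880_RB.Tor

/-!
# The de Rham–Betti conjecture: from a fibre with few periods to all nearby fibres, in all directions

Let `V` be an open part of affine space over `ℚ`, `X → V` a smooth projective family, `c ∈ V(ℚ)` and `M_x` the motive of the fibre over `x`.
Let `M_0` be an André motive over a number field `K` which contains `ℚ(0)`, `ℚ(1)`, `ℚ(-1)`. Let the periods of `M_0` and of `M_c` be,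
up to a common factor, algebraic over a field generated by `r` numbers. We consider the directions `a` such that the
monodromy group of the line `c + z a` is connected with a given Lie algebra `𝔪`, such that all proper subalgebras of `𝔪` have
codimension larger than `r` (and all quotients of `𝔪` have trivial centre, for example `𝔪` is semisimple). The theorem (with
theorems of Deligne, André and Chevalley, which are not in the Lean) says:

* **If `Ω^dRB = Ω^And` for the motive `M_0 ⊕ M_c` over `K`, then `Ω^dRB = Ω^And` for `M_0 ⊕ M_x` over `K`, for all points `x = c + a / t` in all these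
  directions `a` with `t ≥ (|a| + 2)^E`.** There are no exceptions, and `E` depends only on the family, on `c`, `M_0` and on the degree of `K`.
* For families over a curve this is so for all rational points `c + g / t`, `t ≥ (|g| + 2)^E`.

For example let `X_c` be a K3 surface with Picard number `20`, let `E` be an elliptic curve over `ℚ` with complex multiplication by the
same field, and `M_0 = h(E) ⊕ ℚ(1)`, `M_x = h²(X_x)`. Then `r = 2`, and `Ω^dRB = Ω^And` for `M_0 ⊕ M_c` by a theorem of Chudnovsky. So if the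
monodromy group is `SO(n)`, `n ≥ 5`, then `Ω^dRB = Ω^And` for `M_0 ⊕ h²(X_x)`, and for `h(E)` and `h²` of the factors of the products
`E^j × X_x^k`, for all these points `x`.

This is complementary to `FromOneFibre` (on this problem), which is for arbitrary `c`, one direction, and one hundred per cent of the
points `c + 1/m`. The theorem on subtorsors which is used in the proof is `MP_77d3f5_ag.AllDirections` (the classes are invariant under
the monodromy).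

**Setting.** The period matrix of the fibre at `z = u` (`z = g/t`, or `z = 1/t` in the direction `a = i`) is `P = C Z(u)`, where `Z` is an
`n × n` matrix of G-functions over `ℚ` and `C` the matrix of the periods of `M_c`. Let `𝔤` be the Lie algebra of the differential
Galois group at `z = 0`, which is defined over `ℚ`, `𝔪 = C 𝔤 C⁻¹`. The rational tensors killed by `𝔤` are invariant under the connected
monodromy group, so they are rational sections (`RationalInvariants`). A rational tensor `f` in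
`V_0^(⊗ d₀) ⊗ V^(⊗ d)` (Betti side) and `lam ≠ 0` form a de Rham–Betti line over `K` if `lam f` is the image of a tensor over `K` under the
comparison isomorphism (`C₀`, `P`); a class for `lam = 1`. Dual spaces can be included in `V_0` and `V`. For the conditions in the case of
several directions (`UniformFamily`) see `MP_77d3f5_ag.AllDirections`.

**Theorem** (`SameLines`). For all points as above, all number fields `K` of degree at most `D`, and all `lam ≠ 0`: `f` and `lam` form a de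
Rham–Betti line for `M_0` and `M_x` if and only if they do for `M_0` and `M_c` and `f` is killed by `𝔪`. See `FromOneFibre` for the
deduction of the statement on `Ω^And`.

**Proof** (`Pool/Agent/Helper880_RB`). The block matrices which map the de Rham coordinates to a multiple of `f` form a `K`-subtorsor,
which is stable under `exp (s Y)`, `Y ∈ 𝔪` (`AllDirections`). So `𝔪` acts on `f` by scalars, its commutators by zero, and as the
quotients of `𝔪` have trivial centre `𝔪` kills `f`. The rest is as in `FromOneFibre`.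
-/

set_option autoImplicit false

open PowerSeries
open scoped Matrix

namespace Pool.Agent.Results.MP_470b79_ag.AllNearbyFibres

open Pool.Agent.Results.MP_77d3f5_ag.AllDirections (GFamily entries valueAt periodAt toC Symmetry FewPeriods Admissible
  CentreFree IsLieAlg IsSubtorsor total Good UniformFamily allEntries JointSymmetry)

section defs
variable {n r : ℕ}

/-- `C 𝔤 C⁻¹` -/
def conjugate (C : Matrix (Fin n) (Fin n) ℂ) (𝔤 : Submodule ℂ (Matrix (Fin n) (Fin n) ℂ)) :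
    Submodule ℂ (Matrix (Fin n) (Fin n) ℂ) where
  carrier := {Y | ∃ X ∈ 𝔤, Y = C * X * C⁻¹}
  zero_mem' := ⟨0, 𝔤.zero_mem, by rw [Matrix.mul_zero, Matrix.zero_mul]⟩
  add_mem' := by
    rintro _ _ ⟨X, hX, rfl⟩ ⟨Y, hY, rfl⟩
    exact ⟨X + Y, 𝔤.add_mem hX hY, by rw [Matrix.mul_add, Matrix.add_mul]⟩
  smul_mem' := by
    rintro c _ ⟨X, hX, rfl⟩
    exact ⟨c • X, 𝔤.smul_mem c hX, by rw [Matrix.mul_smul, Matrix.smul_mul]⟩

/-- the space is spanned by rational matrices -/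
def IsRational (W : Submodule ℂ (Matrix (Fin n) (Fin n) ℂ)) : Prop :=
  W ≤ Submodule.span ℂ {X | X ∈ W ∧ ∀ a b, ∃ q : ℚ, X a b = q}

/-- The monodromy invariant tensors are rational sections: for all rational tensors `g` in `V^(⊗ d)` which are killed by `𝔤`
there are a polynomial `q ≠ 0` and polynomials `R` over `ℚ` with `q(x) g = Z(x)^(⊗ d) R(x)`. -/
def RationalInvariants (Z : Matrix (Fin n) (Fin n) ℚ⟦X⟧) (𝔤 : Submodule ℂ (Matrix (Fin n) (Fin n) ℂ)) : Prop :=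
  ∀ (d : ℕ) (g : (Fin d → Fin n) → ℚ),
    (∀ X ∈ 𝔤, ∀ v, ∑ l, ∑ a, X (v l) a * (g (Function.update v l a) : ℂ) = 0) →
    ∃ (q : Polynomial ℚ) (R : (Fin d → Fin n) → Polynomial ℚ), q ≠ 0 ∧
      ∀ v, (q : ℚ⟦X⟧) * PowerSeries.C (g v) = ∑ v' : Fin d → Fin n, (∏ l, Z (v l) (v' l)) * (R v' : ℚ⟦X⟧)

/-- The tensor in `V_0^(⊗ d₀) ⊗ V^(⊗ d)` (Betti side) whose coordinates in the de Rham bases are `w`; the period matrices (the
columns are the elements of the de Rham bases) are `C₀` and `P`. -/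
def transform {d₀ d : ℕ} (C₀ : Matrix (Fin r) (Fin r) ℂ) (P : Matrix (Fin n) (Fin n) ℂ)
    (w : (Fin d₀ → Fin r) → (Fin d → Fin n) → ℂ) (x : Fin d₀ → Fin r) (y : Fin d → Fin n) : ℂ :=
  ∑ x' : Fin d₀ → Fin r, ∑ y' : Fin d → Fin n, (∏ k, C₀ (x k) (x' k)) * (∏ l, P (y l) (y' l)) * w x' y'

/-- The rational tensor `f` in `V_0^(⊗ d₀) ⊗ V^(⊗ d)` is a de Rham–Betti class over `K` up to the factor `lam`: the
comparison isomorphism maps a tensor over `K` to `lam f`. For `lam = 1` it is a de Rham–Betti class; for `lam ≠ 0` it spans a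
subobject of rank one. -/
def IsDeRhamBetti {d₀ d : ℕ} (K : Subfield ℂ) (C₀ : Matrix (Fin r) (Fin r) ℂ) (P : Matrix (Fin n) (Fin n) ℂ) (lam : ℂ)
    (f : (Fin d₀ → Fin r) → (Fin d → Fin n) → ℚ) : Prop :=
  ∃ w : (Fin d₀ → Fin r) → (Fin d → Fin n) → ℂ, (∀ x y, w x y ∈ K) ∧ ∀ x y, transform C₀ P w x y = lam * (f x y : ℂ)

/-- the tensor `f` in `V_0^(⊗ d₀) ⊗ V^(⊗ d)` is killed by `0 ⊕ 𝔪` -/
def Invariant {d₀ d : ℕ} (𝔪 : Submodule ℂ (Matrix (Fin n) (Fin n) ℂ)) (f : (Fin d₀ → Fin r) → (Fin d → Fin n) → ℚ) : Prop :=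
  ∀ X ∈ 𝔪, ∀ x y, ∑ l, ∑ a, X (y l) a * (f x (Function.update y l a) : ℂ) = 0

/-- For all number fields `K` of degree at most `D` the de Rham–Betti classes and lines of `M_0` and the fibre with the period
matrix `P` are the de Rham–Betti classes and lines of `M_0` and the central fibre (period matrix `C`) which are killed by
`C 𝔤 C⁻¹`, with the same factors. -/
def SameLines (D : ℕ) (C₀ : Matrix (Fin r) (Fin r) ℂ) (C : Matrix (Fin n) (Fin n) ℂ)
    (𝔤 : Submodule ℂ (Matrix (Fin n) (Fin n) ℂ)) (P : Matrix (Fin n) (Fin n) ℂ) : Prop :=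
  ∀ K : Subfield ℂ, FiniteDimensional ℚ K → Module.finrank ℚ K ≤ D →
    ∀ (d₀ d : ℕ) (lam : ℂ) (f : (Fin d₀ → Fin r) → (Fin d → Fin n) → ℚ), lam ≠ 0 →
      (IsDeRhamBetti K C₀ P lam f ↔ IsDeRhamBetti K C₀ C lam f ∧ Invariant (conjugate C 𝔤) f)

end defs

theorem rat_eq {n : ℕ} {W : Submodule ℂ (Matrix (Fin n) (Fin n) ℂ)} :
    IsRational W → Pool.Agent.Helper880_RB.DefOver Pool.Agent.Helper880_RB.K₀ W := by
  intro h
  have h1 : {X : Matrix (Fin n) (Fin n) ℂ | X ∈ W ∧ ∀ a b, ∃ q : ℚ, X a b = q} =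
      {X | X ∈ W ∧ ∀ i j, X i j ∈ Pool.Agent.Helper880_RB.K₀} := by
    ext X
    exact and_congr Iff.rfl (forall_congr' fun a => forall_congr' fun b => Pool.Agent.Helper880_RB.mem_K₀.symm)
  refine le_antisymm ?_ (Submodule.span_le.2 fun X hX => hX.1)
  rw [← h1]
  exact h

theorem drb_eq {n r d₀ d : ℕ} {K : Subfield ℂ} {C₀ : Matrix (Fin r) (Fin r) ℂ} {P : Matrix (Fin n) (Fin n) ℂ} {lam : ℂ}
    {f : (Fin d₀ → Fin r) → (Fin d → Fin n) → ℚ} : IsDeRhamBetti K C₀ P lam f ↔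
      ∃ w : Pool.Agent.Helper880_RB.Ten ℂ d₀ d r n, (∀ u v, w u v ∈ K) ∧
        Pool.Agent.Helper880_RB.gp C₀ P w = lam • Pool.Agent.Helper880_RB.tC f := by
  refine exists_congr fun w => and_congr Iff.rfl ⟨fun h => ?_, fun h x y => ?_⟩
  · funext x y
    exact h x y
  · exact congrFun (congrFun h x) y

/-- the tensors of de Rham–Betti lines are invariant -/
theorem inv_of {n r : ℕ} {K : Subfield ℂ} {C₀ : Matrix (Fin r) (Fin r) ℂ} {C P : Matrix (Fin n) (Fin n) ℂ}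
    {𝔤 : Submodule ℂ (Matrix (Fin n) (Fin n) ℂ)} (hu : IsUnit P) (hC₀ : IsUnit C₀) (hC : IsUnit C.det) (hcf : CentreFree 𝔤)
    (hL : IsLieAlg 𝔤)
    (hst : ∀ T : Set (Matrix (Fin r ⊕ (Fin n × Fin 1)) (Fin r ⊕ (Fin n × Fin 1)) ℂ), IsSubtorsor K T →
        total C₀ (fun _ : Fin 1 => P) ∈ T → ∀ X : Fin 1 → Matrix (Fin n) (Fin n) ℂ, (∀ j, X j ∈ 𝔤) → ∀ x ∈ T,
          total 1 (fun j => NormedSpace.exp (C * X j * C⁻¹)) * x ∈ T)
    {d₀ d : ℕ} {lam : ℂ} {f : (Fin d₀ → Fin r) → (Fin d → Fin n) → ℚ} (hl : lam ≠ 0)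
    (hf : IsDeRhamBetti K C₀ P lam f) :
    ∀ X ∈ 𝔤, Pool.Agent.Helper880_RB.la (C * X * C⁻¹) (Pool.Agent.Helper880_RB.tC f) = 0 := by
  open Pool.Agent.Helper880_RB in
  by_cases hf0 : f = 0
  · intro X _
    have h1 : tC f = 0 := by
      funext u v
      show ((f u v : ℚ) : ℂ) = 0
      rw [hf0]
      exact Rat.cast_zero
    rw [h1]
    unfold la
    rw [map_zero]
  obtain ⟨w, hw, he⟩ := drb_eq.1 hf
  have htC : tC f ≠ 0 := by
    intro h1
    refine hf0 (funext fun u => funext fun v => ?_)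
    have h2 : ((f u v : ℚ) : ℂ) = 0 := congrFun (congrFun h1 u) v
    exact Rat.cast_eq_zero.1 h2
  have hw0 : w ≠ 0 := by
    rintro rfl
    rw [gp_zero] at he
    exact (smul_ne_zero hl htC) he.symm
  have hPd := (Matrix.isUnit_iff_isUnit_det _).1 hu
  have hC₀d := (Matrix.isUnit_iff_isUnit_det _).1 hC₀
  have hsub : IsSubtorsor K (LT w f) := ⟨LT_mul hw0, LT_pol K hw hf0⟩
  have hunit : IsUnit (total C₀ (fun _ : Fin 1 => P)) := by
    rw [Matrix.isUnit_iff_isUnit_det]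
    unfold total
    rw [Matrix.det_fromBlocks_zero₂₁, Matrix.det_blockDiagonal]
    refine hC₀d.mul ?_
    rw [Finset.univ_unique, Finset.prod_singleton]
    exact hPd
  have hmem : total C₀ (fun _ : Fin 1 => P) ∈ LT w f := ⟨hunit, C₀, P, rfl, lam, he⟩
  have hscal : ∀ X ∈ 𝔤, ∃ c : ℂ, la (C * X * C⁻¹) (tC f) = c • tC f := by
    intro X hX
    refine scal_of fun s => ?_
    obtain ⟨-, a, b, hab, c, hc⟩ := hst _ hsub hmem (fun _ => s • X) (fun _ => 𝔤.smul_mem s hX) _ hmem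
    have h0 : C * (s • X) * C⁻¹ = s • (C * X * C⁻¹) := by rw [Matrix.mul_smul, Matrix.smul_mul]
    have h1 : total (1 : Matrix (Fin r) (Fin r) ℂ) (fun _ : Fin 1 => NormedSpace.exp (C * (s • X) * C⁻¹)) *
        total C₀ (fun _ : Fin 1 => P) = total (1 * C₀) (fun _ : Fin 1 => NormedSpace.exp (C * (s • X) * C⁻¹) * P) :=
      Pool.Agent.Helper880_RB.Tot_mul _ _ _ _
    rw [h1] at hab
    obtain ⟨h2, h3⟩ := Pool.Agent.Helper880_RB.Tot_inj hab
    have h4 : NormedSpace.exp (C * (s • X) * C⁻¹) * P = b := congrFun h3 0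
    rw [← h2, ← h4, gp_mul, he, gp_smul, h0] at hc
    refine ⟨lam⁻¹ * c, ?_⟩
    rw [← smul_smul, ← hc, smul_smul, inv_mul_cancel₀ hl, one_smul]
  have hadd : ∀ A B : Matrix (Fin n) (Fin n) ℂ, la (A + B) (tC f) = la A (tC f) + la B (tC f) := by
    intro A B
    rw [← one_la, ← one_la, ← one_la, map_add]
  have hsm : ∀ (c : ℂ) (A : Matrix (Fin n) (Fin n) ℂ), la (c • A) (tC f) = c • la A (tC f) := by
    intro c A
    rw [← one_la, ← one_la, map_smul]
  have hbr : ∀ X Y : Matrix (Fin n) (Fin n) ℂ, C * (X * Y - Y * X) * C⁻¹ =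
      (C * X * C⁻¹) * (C * Y * C⁻¹) - (C * Y * C⁻¹) * (C * X * C⁻¹) := by
    intro X Y
    have h1 : ∀ X Y : Matrix (Fin n) (Fin n) ℂ, (C * X * C⁻¹) * (C * Y * C⁻¹) = C * (X * Y) * C⁻¹ := by
      intro X Y
      calc (C * X * C⁻¹) * (C * Y * C⁻¹) = C * X * (C⁻¹ * C) * Y * C⁻¹ := by simp only [Matrix.mul_assoc]
        _ = C * (X * Y) * C⁻¹ := by rw [Matrix.nonsing_inv_mul _ hC, Matrix.mul_one]; simp only [Matrix.mul_assoc]
    rw [h1, h1, Matrix.mul_sub, Matrix.sub_mul]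
  have hcom : ∀ x ∈ 𝔤, ∀ y ∈ 𝔤, la (C * (x * y - y * x) * C⁻¹) (tC f) = 0 := by
    intro x hx y hy
    rw [hbr]
    exact scal_br (hscal x hx) (hscal y hy)
  let J : Submodule ℂ (Matrix (Fin n) (Fin n) ℂ) :=
    { carrier := {X | X ∈ 𝔤 ∧ la (C * X * C⁻¹) (tC f) = 0}
      zero_mem' := ⟨𝔤.zero_mem, by
        have h1 := hsm 0 0
        rw [zero_smul, zero_smul] at h1
        rw [Matrix.mul_zero, Matrix.zero_mul]
        exact h1⟩
      add_mem' := by
        rintro X Y ⟨h1, h2⟩ ⟨h3, h4⟩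
        refine ⟨𝔤.add_mem h1 h3, ?_⟩
        rw [Matrix.mul_add, Matrix.add_mul, hadd, h2, h4, add_zero]
      smul_mem' := by
        rintro c X ⟨h1, h2⟩
        refine ⟨𝔤.smul_mem c h1, ?_⟩
        rw [Matrix.mul_smul, Matrix.smul_mul, hsm, h2, smul_zero] }
  have hJ : ∀ X, X ∈ J ↔ X ∈ 𝔤 ∧ la (C * X * C⁻¹) (tC f) = 0 := fun X => Iff.rfl
  intro X hX
  exact ((hJ X).1 (hcf J (fun Y hY => hY.1) (fun x hx y hy => ⟨hL x hx y hy.1, hcom x hx y hy.1⟩) X hX
    fun y hy => ⟨hL X hX y hy, hcom X hX y hy⟩)).2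

theorem same_of {n r D : ℕ} {C₀ : Matrix (Fin r) (Fin r) ℂ} {C V : Matrix (Fin n) (Fin n) ℂ}
    {𝔤 : Submodule ℂ (Matrix (Fin n) (Fin n) ℂ)} {Z : Matrix (Fin n) (Fin n) ℚ⟦X⟧} (hC₀ : IsUnit C₀) (hP : IsUnit (C * V))
    (hcf : CentreFree 𝔤) (hL : IsLieAlg 𝔤) (hr : IsRational 𝔤) (hRI : RationalInvariants Z 𝔤) {u₀ : ℚ}
    (hc : ∀ a b, Pool.Agent.Helper880_R3.Cc (u₀ : ℝ) (Pool.Agent.Helper880_RB.cx (Z a b)))
    (hV : ∀ a b, V a b = Pool.Agent.Helper880_R3.ec (u₀ : ℝ) (Pool.Agent.Helper880_RB.cx (Z a b)))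
    (h : Good D C₀ C 𝔤 fun _ : Fin 1 => C * V) : SameLines D C₀ C 𝔤 (C * V) := by
  have hdet := (Matrix.isUnit_iff_isUnit_det _).1 hP
  rw [Matrix.det_mul] at hdet
  have hCd : IsUnit C.det := isUnit_of_mul_isUnit_left hdet
  have hVd : IsUnit V.det := isUnit_of_mul_isUnit_right hdet
  have hC₀d := (Matrix.isUnit_iff_isUnit_det _).1 hC₀
  intro K hK hKD d₀ d lam f hl
  have key : (Invariant (conjugate C 𝔤) f) → (IsDeRhamBetti K C₀ (C * V) lam f ↔ IsDeRhamBetti K C₀ C lam f) := by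
    intro hinv
    rw [drb_eq, drb_eq]
    refine Pool.Agent.Helper880_RB.line_iff (rat_eq hr) (fun g hg => ?_) hC₀d hCd hVd K lam f fun X hX => ?_
    · exact Pool.Agent.Helper880_RB.ri_eval hRI hc hV hVd g hg
    · funext x y
      rw [Pool.Agent.Helper880_RB.la_apply]
      exact hinv _ ⟨X, hX, rfl⟩ x y
  constructor
  · intro hf
    have h1 : Invariant (conjugate C 𝔤) f := by
      rintro _ ⟨X, hX, rfl⟩ x y
      have h2 := inv_of hP hC₀ hCd hcf hL (fun T hT hmem X hX x hx => (h K hK hKD T hT hmem).1 X hX x hx) hl hf X hX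
      have h3 := congrFun (congrFun h2 x) y
      rw [Pool.Agent.Helper880_RB.la_apply] at h3
      exact h3
    exact ⟨(key h1).1 hf, h1⟩
  · rintro ⟨h1, h2⟩
    exact (key h2).2 h1

/-- convergence -/
theorem conv {f : ℚ⟦X⟧} {C u : ℝ} (hf : ∀ m, |((coeff m f : ℚ) : ℝ)| ≤ C ^ (m + 1)) (hu : C * |u| ≤ 1 / 2) :
    Pool.Agent.Helper880_R3.Cc u (Pool.Agent.Helper880_RB.cx f) := by
  have h0 : 0 ≤ C := by
    have h1 := hf 0
    rw [zero_add, pow_one] at h1
    exact (abs_nonneg _).trans h1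
  have hsum : Summable fun k : ℕ => C * (1 / 2 : ℝ) ^ k :=
    (summable_geometric_of_lt_one (by norm_num) (by norm_num)).mul_left _
  refine Summable.of_nonneg_of_le (fun k => norm_nonneg _) (fun k => ?_) hsum
  rw [Pool.Agent.Helper880_RB.cx, PowerSeries.coeff_map, norm_mul, norm_pow, Complex.norm_real, Real.norm_eq_abs, eq_ratCast]
  have h1 : ‖((coeff k f : ℚ) : ℂ)‖ = |((coeff k f : ℚ) : ℝ)| := by
    have h2 : ((coeff k f : ℚ) : ℂ) = (((coeff k f : ℚ) : ℝ) : ℂ) := by push_cast; rfl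
    rw [h2, Complex.norm_real, Real.norm_eq_abs]
  rw [h1]
  calc |((coeff k f : ℚ) : ℝ)| * |u| ^ k ≤ C ^ (k + 1) * |u| ^ k :=
        mul_le_mul_of_nonneg_right (hf k) (by positivity)
    _ = C * (C * |u|) ^ k := by rw [mul_pow]; ring
    _ ≤ C * (1 / 2 : ℝ) ^ k :=
        mul_le_mul_of_nonneg_left (pow_le_pow_left₀ (mul_nonneg h0 (abs_nonneg _)) hu _) h0

theorem conv_one {n : ℕ} {Z : Matrix (Fin n) (Fin n) ℚ⟦X⟧}
    (hs : ∃ K : ℝ, ∀ i m, |((coeff m (entries Z i) : ℚ) : ℝ)| ≤ K ^ (m + 1)) :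
    ∃ E : ℕ, ∀ (g : ℤ) (t : ℕ), (g.natAbs + 2) ^ E ≤ t → ∀ a b,
      Pool.Agent.Helper880_R3.Cc ((((g : ℚ) / t : ℚ)) : ℝ) (Pool.Agent.Helper880_RB.cx (Z a b)) := by
  obtain ⟨K, hK⟩ := hs
  obtain ⟨E₁, hE₁⟩ := pow_unbounded_of_one_lt (2 * K) (one_lt_two : (1 : ℝ) < 2)
  refine ⟨E₁ + 1, fun g t ht a b => ?_⟩
  have h3 : entries Z (finProdFinEquiv (a, b)) = Z a b := by
    unfold entries
    rw [Equiv.symm_apply_apply]
  have h2 := hK (finProdFinEquiv (a, b))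
  rw [h3] at h2
  refine conv h2 ?_
  have hK0 : 0 ≤ K := by
    have h1 := h2 0
    rw [zero_add, pow_one] at h1
    exact (abs_nonneg _).trans h1
  have hpos : 0 < (g.natAbs + 2) ^ (E₁ + 1) := by positivity
  have ht0 : (0 : ℝ) < t := by exact_mod_cast lt_of_lt_of_le hpos ht
  have h1 : |(((g : ℚ) / t : ℚ) : ℝ)| = (g.natAbs : ℝ) / t := by
    push_cast
    rw [abs_div, abs_of_pos ht0, Nat.cast_natAbs, Int.cast_abs]
  rw [h1, ← mul_div_assoc, div_le_iff₀ ht0]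
  have h4 : ((g.natAbs : ℝ) + 2) ^ (E₁ + 1) ≤ t := by exact_mod_cast ht
  have h6 : (0 : ℝ) ≤ (g.natAbs : ℝ) := Nat.cast_nonneg _
  have h5 : (2 : ℝ) ^ E₁ * (g.natAbs : ℝ) ≤ ((g.natAbs : ℝ) + 2) ^ (E₁ + 1) := by
    rw [pow_succ]
    exact mul_le_mul (pow_le_pow_left₀ (by norm_num) (by linarith) _) (by linarith) h6 (by positivity)
  have h7 : 2 * K * (g.natAbs : ℝ) ≤ 2 ^ E₁ * (g.natAbs : ℝ) := mul_le_mul_of_nonneg_right hE₁.le h6
  linarith

theorem conv_uni {n : ℕ} {I : Type} {H : I → ℕ} {Z : I → Matrix (Fin n) (Fin n) ℚ⟦X⟧}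
    (hU : UniformFamily H fun i => allEntries (fun _ : Fin 1 => Z i)) :
    ∃ E : ℕ, ∀ (i : I) (t : ℕ), (H i + 2) ^ E ≤ t → ∀ a b,
      Pool.Agent.Helper880_R3.Cc (((1 / (t : ℚ) : ℚ)) : ℝ) (Pool.Agent.Helper880_RB.cx (Z i a b)) := by
  obtain ⟨q, E, hE⟩ := hU.system
  refine ⟨E + 1, fun i t ht a b => ?_⟩
  obtain ⟨T, hT, hS⟩ := hE i
  refine conv (fun m => hS.size (0, a, b) m) ?_
  have hpos : 0 < (H i + 2) ^ (E + 1) := by positivity
  have ht0 : (0 : ℝ) < t := by exact_mod_cast lt_of_lt_of_le hpos ht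
  have h1 : |(((1 / (t : ℚ) : ℚ)) : ℝ)| = 1 / (t : ℝ) := by
    push_cast
    exact abs_of_pos (by positivity)
  have h2 : ((H i : ℝ) + 2) ^ (E + 1) ≤ t := by exact_mod_cast ht
  rw [h1, mul_one_div, div_le_iff₀ ht0]
  rw [pow_succ] at h2
  have h3 : (0 : ℝ) ≤ (H i : ℝ) := Nat.cast_nonneg _
  have h4 : (0 : ℝ) ≤ ((H i : ℝ) + 2) ^ E := by positivity
  nlinarith

theorem exp0 {n : ℕ} (L : ℂ) : NormedSpace.exp ((-L) • toC (0 : Matrix (Fin n) (Fin n) ℚ)) = 1 := by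
  have h1 : toC (0 : Matrix (Fin n) (Fin n) ℚ) = 0 := by
    ext i j
    show (((0 : ℚ)) : ℂ) = 0
    rw [Rat.cast_zero]
  rw [h1, smul_zero, NormedSpace.exp_zero]

theorem periodAt0 {n : ℕ} (C : Matrix (Fin n) (Fin n) ℂ) (Z : Matrix (Fin n) (Fin n) ℚ⟦X⟧) (L : ℂ) (u : ℝ) :
    periodAt C 0 L Z u = C * valueAt Z u := by
  unfold periodAt
  rw [exp0, Matrix.one_mul]

theorem val_eq {n : ℕ} (Z : Matrix (Fin n) (Fin n) ℚ⟦X⟧) (u₀ : ℚ) (a b : Fin n) :
    valueAt Z (u₀ : ℝ) a b = Pool.Agent.Helper880_R3.ec (u₀ : ℝ) (Pool.Agent.Helper880_RB.cx (Z a b)) := by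
  show ((∑' k : ℕ, ((coeff k (Z a b) : ℚ) : ℝ) * (u₀ : ℝ) ^ k : ℝ) : ℂ) = _
  unfold Pool.Agent.Helper880_R3.ec
  rw [Complex.ofReal_tsum]
  refine tsum_congr fun m => ?_
  rw [Pool.Agent.Helper880_RB.cx, PowerSeries.coeff_map, eq_ratCast]
  push_cast
  rfl

theorem normal0 {n : ℕ} {𝔤 : Submodule ℂ (Matrix (Fin n) (Fin n) ℂ)} :
    ∀ X ∈ 𝔤, toC (0 : Matrix (Fin n) (Fin n) ℚ) * X - X * toC (0 : Matrix (Fin n) (Fin n) ℚ) ∈ 𝔤 := by
  intro X _
  have h1 : toC (0 : Matrix (Fin n) (Fin n) ℚ) = 0 := by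
    ext i j
    show (((0 : ℚ)) : ℂ) = 0
    rw [Rat.cast_zero]
  rw [h1, Matrix.zero_mul, Matrix.mul_zero, sub_zero]
  exact 𝔤.zero_mem

/-- **The theorem.** The first part is on the rational points of the parameter lines of families, the second one on uniform
families (points in all directions of the parameter spaces of any dimension). -/
theorem result :
    (∀ (n : ℕ) (_ : 0 < n) (T : Polynomial ℤ) (A : Fin (n * n) → Fin (n * n) → Polynomial ℤ)
      (Z : Matrix (Fin n) (Fin n) ℚ⟦X⟧) (_ : GFamily T A (entries Z)) (𝔤 : Submodule ℂ (Matrix (Fin n) (Fin n) ℂ)) (r : ℕ)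
      (_ : Admissible r 𝔤) (_ : IsRational 𝔤) (_ : ∀ X ∈ 𝔤, Symmetry Z X) (_ : RationalInvariants Z 𝔤)
      (D r₀ : ℕ) (C₀ : Matrix (Fin r₀) (Fin r₀) ℂ) (C : Matrix (Fin n) (Fin n) ℂ), IsUnit C₀ → FewPeriods r C₀ C →
      ∃ E : ℕ, ∀ (g : ℤ) (t : ℕ), g ≠ 0 → (g.natAbs + 2) ^ E ≤ t → IsUnit (C * valueAt Z ((g : ℝ) / t)) →
        SameLines D C₀ C 𝔤 (C * valueAt Z ((g : ℝ) / t))) ∧
    ∀ (n : ℕ) (_ : 0 < n) (I : Type) (H : I → ℕ) (Z : I → Matrix (Fin n) (Fin n) ℚ⟦X⟧)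
      (_ : UniformFamily H fun i => allEntries (fun _ : Fin 1 => Z i)) (𝔤 : Submodule ℂ (Matrix (Fin n) (Fin n) ℂ)) (r : ℕ)
      (_ : Admissible r 𝔤) (_ : IsRational 𝔤) (_ : ∀ i, ∀ X ∈ 𝔤, JointSymmetry (fun _ : Fin 1 => Z i) fun _ => X)
      (_ : ∀ i, RationalInvariants (Z i) 𝔤)
      (D r₀ : ℕ) (C₀ : Matrix (Fin r₀) (Fin r₀) ℂ) (C : Matrix (Fin n) (Fin n) ℂ), IsUnit C₀ → FewPeriods r C₀ C →
      ∃ E : ℕ, ∀ (i : I) (t : ℕ), (H i + 2) ^ E ≤ t → IsUnit (C * valueAt (Z i) (1 / (t : ℝ))) →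
        SameLines D C₀ C 𝔤 (C * valueAt (Z i) (1 / (t : ℝ))) := by
  obtain ⟨R1, R2⟩ := Pool.Agent.Results.MP_77d3f5_ag.AllDirections.result
  refine ⟨?_, ?_⟩
  · intro n hn T A Z hG 𝔤 r hadm hr hI hRI D r₀ C₀ C hC₀ hfew
    obtain ⟨hL, hcf, -⟩ := Pool.Agent.Results.MP_77d3f5_ag.AllDirections.adm hn hadm
    obtain ⟨E₁, hE₁⟩ := R1 n hn T A Z hG 0 (zero_pow hn.ne') 𝔤 r hadm hI normal0 D r₀ r C₀ C hfew
      (by rw [if_pos rfl, add_zero])
    obtain ⟨E₂, hE₂⟩ := conv_one hG.size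
    refine ⟨max E₁ E₂, fun g t hg ht hu => ?_⟩
    have ht1 : (g.natAbs + 2) ^ E₁ ≤ t := (Nat.pow_le_pow_right (by omega) (le_max_left _ _)).trans ht
    have ht2 : (g.natAbs + 2) ^ E₂ ≤ t := (Nat.pow_le_pow_right (by omega) (le_max_right _ _)).trans ht
    have h1 := hE₁ g t hg ht1 0
    have hper : (fun _ : Fin 1 => periodAt C 0 0 Z ((g : ℝ) / t)) = fun _ => C * valueAt Z ((g : ℝ) / t) := by
      funext j
      exact periodAt0 _ _ _ _
    rw [hper] at h1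
    have hcast : ((((g : ℚ) / t : ℚ)) : ℝ) = (g : ℝ) / t := by push_cast; rfl
    refine same_of hC₀ hu hcf hL hr hRI (u₀ := (g : ℚ) / t) (hE₂ g t ht2) (fun a b => ?_) h1
    rw [← hcast]
    exact val_eq Z _ a b
  · intro n hn I H Z hU 𝔤 r hadm hr hI hRI D r₀ C₀ C hC₀ hfew
    obtain ⟨hL, hcf, -⟩ := Pool.Agent.Results.MP_77d3f5_ag.AllDirections.adm hn hadm
    obtain ⟨E₁, hE₁⟩ := R2 n 1 hn one_pos I H (fun i _ => Z i) hU 0 (zero_pow hn.ne') 𝔤 r hadm (fun i X hX => by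
      have h1 : X = fun _ => X 0 := funext fun j => by rw [Subsingleton.elim j 0]
      rw [h1]
      exact hI i (X 0) (hX 0)) normal0 D r₀ r C₀ C hfew (by rw [if_pos rfl, add_zero])
    obtain ⟨E₂, hE₂⟩ := conv_uni hU
    refine ⟨max E₁ E₂, fun i t ht hu => ?_⟩
    have ht1 : (H i + 2) ^ E₁ ≤ t := (Nat.pow_le_pow_right (by omega) (le_max_left _ _)).trans ht
    have ht2 : (H i + 2) ^ E₂ ≤ t := (Nat.pow_le_pow_right (by omega) (le_max_right _ _)).trans ht
    have h1 := hE₁ i t ht1 0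
    have hper : (fun _ : Fin 1 => periodAt C 0 0 (Z i) (1 / (t : ℝ))) = fun _ => C * valueAt (Z i) (1 / (t : ℝ)) := by
      funext j
      exact periodAt0 _ _ _ _
    rw [hper] at h1
    have hcast : (((1 / (t : ℚ) : ℚ)) : ℝ) = 1 / (t : ℝ) := by push_cast; rfl
    refine same_of hC₀ hu hcf hL hr (hRI i) (u₀ := 1 / (t : ℚ)) (hE₂ i t ht2) (fun a b => ?_) h1
    rw [← hcast]
    exact val_eq (Z i) _ a b

end Pool.Agent.Results.MP_470b79_ag.AllNearbyFibres
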