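import Pool.Agent.Results.MP_470b79_ag.MonodromyTorsors
import Pool.Agent.Helper880_RB.Tor

/-!
# The de Rham–Betti conjecture: from one fibre to one hundred per cent of the fibres

Let `X → S` be a smooth projective family over `ℚ` over an open part `S` of the line with **any** connected monodromy group, let `c` be a
rational point of `S` (`z = 0` below), and let `M_z` be the motive of the fibre over `z` (`h^i`, or the sum of all `h^i`). Let
`M_0` be any André motive over a number field `K`, which contains `ℚ(0)`, `ℚ(1)` and `ℚ(-1)`. The theorem (with theorems of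
Deligne, André and Chevalley, which are not in the Lean, see below) says:

* **If `Ω^dRB = Ω^And` for the motive `M_0 ⊕ M_c` over `K`, then `Ω^dRB = Ω^And` for `M_0 ⊕ M_(c + 1/m)` over `K`, for one hundred per
  cent of the integers `m`**: there are at most `B T^(1 - δ)` exceptions `m ≤ T`, and at most `M` exceptions in each interval
  `[N, N + N^c']`, with `δ, c' > 0`. The numbers `B`, `M`, `δ`, `c'` depend only on the family, on the rank of `M_0` and on the
  degree of `K`.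
* So, taking `M_0 ⊕ M_(c + 1/m)` for a new `M_0`, the same is true for `M_0 ⊕ M_(c + 1/m_1) ⊕ … ⊕ M_(c + 1/m_k)` for almost all
  tuples, if `Ω^dRB = Ω^And` for `M_0 ⊕ M_c`.

For example let `X → S` be such a family of K3 surfaces or hyper-Kähler varieties (with connected monodromy group), with a fibre
`X_c` over `c ∈ S(ℚ)` with `h^(1,1) - ρ ≤ 2`: then `Ω^dRB = Ω^And` is known for `h²(X_c)` and we get it for `h²` of one hundred per cent
of the fibres over `c + 1/m`, and of the products of these fibres.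

The starting file `MonodromyTorsors` of this problem (which is used in the proof) shows that for almost all `m` the de Rham–Betti
classes of `M_0 ⊕ M_(c + 1/m)` are invariant under the monodromy. If the motivic Galois group is larger than the product
of the monodromy group and the torus of the Tate motives (for example if `M_0` is not a Tate motive, or if the family has a
constant part) this does not say that these classes are motivated. Here we show that they are de Rham–Betti classes of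
`M_0 ⊕ M_c`, and conversely, so that the conjecture for one fibre implies the conjecture for almost all of them.

**Setting.** Let `Z` be a fundamental matrix, regular at `z = 0`, of a system `f Z' = Z A` over `ℚ(z)` such that the entries of `Z` and
of `W = Z⁻¹` are G-functions, for example the matrix of the Gauss–Manin connection of the family, and let `Ω` be the
matrix of the periods of the fibre at `z = 0` (any invertible complex matrix). Then `P = Ω Z(1/m)` is the period matrix of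
the fibre `M_(1/m)`, with respect to a de Rham basis over `ℚ` and a Betti basis. Let `C₀` be the period matrix of `M_0`. We
consider the tensor spaces `V_0^(⊗ d₀) ⊗ V^(⊗ d)`; dual spaces can be included in `V_0` and in `V` (replace `Z` by `Z ⊕ Wᵗ`). A
rational tensor `f` on the Betti side and `lam ≠ 0` form a de Rham–Betti line if the comparison isomorphism maps a tensor
over `K` to `lam f`; for `lam = 1` this is a de Rham–Betti class. Let `𝔤` be the Lie algebra of the differential Galois group at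
`z = 0` (it is defined over `ℚ`); `𝔪 = Ω 𝔤 Ω⁻¹` is the Lie algebra of the monodromy group, which is semisimple by Deligne, so it is spanned
by its nilpotent elements `𝒩`, and these are in the span of their commutators (`IsPerfectUnipotent`). The tensors which are
killed by `𝔤` are invariant under the monodromy, which is connected, so they are rational sections (`RationalInvariants`).

**Theorem.** For all but few `m` (see above) the following is true for all number fields `K` of degree at most `D`, all `C₀` and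
all `Ω`: for all `lam ≠ 0` the tensor `f` is a de Rham–Betti class up to the factor `lam` for `M_0` and `M_(1/m)` if and only if it
is one for `M_0` and the central fibre, with the same factor `lam`, and is killed by `𝔪`.

The exceptional set may depend on `K`, `C₀`, `Ω`, but the bounds do not depend on them.

**Why this implies the statement on `Ω^And`.** By Chevalley's theorem `G_dRB(M_0 ⊕ M_(1/m))` is the stabiliser of a line in a
direct sum of tensor spaces. It is a de Rham–Betti line, that is, each component is one, with a common factor `lam`. By the theorem this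
is a de Rham–Betti line for the central fibre, fixed by the connected monodromy group. If `Ω^dRB = Ω^And` there, this line is a
submotive of rank one of the central fibre, and the orthogonal projection to it with respect to the polarisations is
motivated and invariant under the monodromy. By André's theorem (deformation of motivated cycles) its parallel transport is
motivated, and it is defined over `K` because its de Rham component is. So the line is a submotive, it is
stable under `G_And(M_0 ⊕ M_(1/m))`, and this group is contained in `G_dRB`, hence equal to it.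

**Proof** (`Pool/Agent/Helper880_RB`). The block matrices which map `w` to a multiple of `f` form a `K`-subtorsor (`LT_mul`,
`LT_pol`). So by the starting file the line `ℂ f` is stable under the matrices `exp (t N)`, `N ∈ 𝒩`; hence the elements of `𝒩` act by scalars
on `f` (`scal_of`), their commutators by zero, and `𝔪` kills `f`. Then the de Rham coordinates of `lam f` at the centre are a
`ℂ`-combination of rational tensors killed by `𝔤` (`expand`); their transports to `1/m` are rational (`ri_eval`), so the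
transport is compatible with `ℚ`-linear maps `ℂ → ℂ` (`lin_inv`), and in particular with a projection of `ℂ` to `K`.
-/

set_option autoImplicit false

open PowerSeries
open scoped Matrix

namespace Pool.Agent.Results.MP_470b79_ag.FromOneFibre

open Pool.Agent.Results.MP_470b79_ag.MonodromyTorsors (GCond periods IsGalois IsPerfectUnipotent expGroup IsSubtorsor total Full)

section defs
variable {n r : ℕ}

/-- `Ω 𝔤 Ω⁻¹` -/
def conjugate (Ω : Matrix (Fin n) (Fin n) ℂ) (𝔤 : Submodule ℂ (Matrix (Fin n) (Fin n) ℂ)) :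
    Submodule ℂ (Matrix (Fin n) (Fin n) ℂ) where
  carrier := {Y | ∃ X ∈ 𝔤, Y = Ω * X * Ω⁻¹}
  zero_mem' := ⟨0, 𝔤.zero_mem, by rw [Matrix.mul_zero, Matrix.zero_mul]⟩
  add_mem' := by
    rintro _ _ ⟨X, hX, rfl⟩ ⟨Y, hY, rfl⟩
    exact ⟨X + Y, 𝔤.add_mem hX hY, by rw [Matrix.mul_add, Matrix.add_mul]⟩
  smul_mem' := by
    rintro c _ ⟨X, hX, rfl⟩
    exact ⟨c • X, 𝔤.smul_mem c hX, by rw [Matrix.mul_smul, Matrix.smul_mul]⟩

/-- the space is spanned by rational matrices -/
def IsRational (W : Submodule ℂ (Matrix (Fin n) (Fin n) ℂ)) : Prop :=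
  W ≤ Submodule.span ℂ {X | X ∈ W ∧ ∀ a b, ∃ q : ℚ, X a b = q}

/-- The monodromy invariant tensors are rational sections: for all rational tensors `g` in `V^(⊗ d)` which are killed by `𝔤`
there are a polynomial `q ≠ 0` and polynomials `R` over `ℚ` with `q(x) g = Z(x)^(⊗ d) R(x)`. -/
def RationalInvariants (Z : Matrix (Fin n) (Fin n) ℚ⟦X⟧) (𝔤 : Submodule ℂ (Matrix (Fin n) (Fin n) ℂ)) : Prop :=
  ∀ (d : ℕ) (g : (Fin d → Fin n) → ℚ),
    (∀ X ∈ 𝔤, ∀ v, ∑ l, ∑ a, X (v l) a * (g (Function.update v l a) : ℂ) = 0) →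
    ∃ (q : Polynomial ℚ) (R : (Fin d → Fin n) → Polynomial ℚ), q ≠ 0 ∧
      ∀ v, (q : ℚ⟦X⟧) * PowerSeries.C (g v) = ∑ v' : Fin d → Fin n, (∏ l, Z (v l) (v' l)) * (R v' : ℚ⟦X⟧)

/-- The tensor in `V_0^(⊗ d₀) ⊗ V^(⊗ d)` (Betti side) whose coordinates in the de Rham bases are `w`; the period matrices (the
columns are the elements of the de Rham bases) are `C₀` and `P`. -/
def transform {d₀ d : ℕ} (C₀ : Matrix (Fin r) (Fin r) ℂ) (P : Matrix (Fin n) (Fin n) ℂ)
    (w : (Fin d₀ → Fin r) → (Fin d → Fin n) → ℂ) (x : Fin d₀ → Fin r) (y : Fin d → Fin n) : ℂ :=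
  ∑ x' : Fin d₀ → Fin r, ∑ y' : Fin d → Fin n, (∏ k, C₀ (x k) (x' k)) * (∏ l, P (y l) (y' l)) * w x' y'

/-- The rational tensor `f` in `V_0^(⊗ d₀) ⊗ V^(⊗ d)` is a de Rham–Betti class over `K` up to the factor `lam`: the
comparison isomorphism maps a tensor over `K` to `lam f`. For `lam = 1` it is a de Rham–Betti class; for `lam ≠ 0` it spans a
subobject of rank one. -/
def IsDeRhamBetti {d₀ d : ℕ} (K : Subfield ℂ) (C₀ : Matrix (Fin r) (Fin r) ℂ) (P : Matrix (Fin n) (Fin n) ℂ) (lam : ℂ)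
    (f : (Fin d₀ → Fin r) → (Fin d → Fin n) → ℚ) : Prop :=
  ∃ w : (Fin d₀ → Fin r) → (Fin d → Fin n) → ℂ, (∀ x y, w x y ∈ K) ∧ ∀ x y, transform C₀ P w x y = lam * (f x y : ℂ)

/-- the tensor `f` in `V_0^(⊗ d₀) ⊗ V^(⊗ d)` is killed by `0 ⊕ 𝔪` -/
def Invariant {d₀ d : ℕ} (𝔪 : Submodule ℂ (Matrix (Fin n) (Fin n) ℂ)) (f : (Fin d₀ → Fin r) → (Fin d → Fin n) → ℚ) : Prop :=
  ∀ X ∈ 𝔪, ∀ x y, ∑ l, ∑ a, X (y l) a * (f x (Function.update y l a) : ℂ) = 0

/-- The de Rham–Betti classes and lines of `M_0` and `M_m` are the de Rham–Betti classes and lines of `M_0` and the central fibre `M_∞`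
(period matrix `Ω`) which are invariant under the monodromy, for all rational Lie algebras `𝔤` such that the invariant
tensors are rational sections and such that `Ω 𝔤 Ω⁻¹` is spanned by nilpotent matrices as in `IsPerfectUnipotent`. -/
def SameLines (K : Subfield ℂ) (C₀ : Matrix (Fin r) (Fin r) ℂ) (Ω : Matrix (Fin n) (Fin n) ℂ)
    (Z : Matrix (Fin n) (Fin n) ℚ⟦X⟧) (x₀ m : ℕ) : Prop :=
  ∀ 𝔤 : Submodule ℂ (Matrix (Fin n) (Fin n) ℂ), IsRational 𝔤 → RationalInvariants Z 𝔤 →
    ∀ 𝒩 : Set (Matrix (Fin n) (Fin n) ℂ), IsPerfectUnipotent Ω Z x₀ 𝒩 → conjugate Ω 𝔤 = Submodule.span ℂ 𝒩 →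
      ∀ (d₀ d : ℕ) (lam : ℂ) (f : (Fin d₀ → Fin r) → (Fin d → Fin n) → ℚ), lam ≠ 0 →
        (IsDeRhamBetti K C₀ (periods Ω Z m) lam f ↔ IsDeRhamBetti K C₀ Ω lam f ∧ Invariant (conjugate Ω 𝔤) f)

end defs

theorem exp_nil {n : ℕ} {N : Matrix (Fin n) (Fin n) ℂ} (hN : IsNilpotent N) (s : ℂ) :
    NormedSpace.exp (s • N) = IsNilpotent.exp (s • N) := by
  obtain ⟨k, hk⟩ := hN.smul s
  rw [IsNilpotent.exp_eq_sum hk, NormedSpace.exp_eq_tsum_rat]
  refine tsum_eq_sum fun i hi => ?_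
  rw [Finset.mem_range, not_lt] at hi
  rw [pow_eq_zero_of_le hi hk, smul_zero]

theorem rat_eq {n : ℕ} {W : Submodule ℂ (Matrix (Fin n) (Fin n) ℂ)} :
    IsRational W → Pool.Agent.Helper880_RB.DefOver Pool.Agent.Helper880_RB.K₀ W := by
  intro h
  have h1 : {X : Matrix (Fin n) (Fin n) ℂ | X ∈ W ∧ ∀ a b, ∃ q : ℚ, X a b = q} =
      {X | X ∈ W ∧ ∀ i j, X i j ∈ Pool.Agent.Helper880_RB.K₀} := by
    ext X
    exact and_congr Iff.rfl (forall_congr' fun a => forall_congr' fun b => Pool.Agent.Helper880_RB.mem_K₀.symm)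
  refine le_antisymm ?_ (Submodule.span_le.2 fun X hX => hX.1)
  rw [← h1]
  exact h

theorem drb_eq {n r d₀ d : ℕ} {K : Subfield ℂ} {C₀ : Matrix (Fin r) (Fin r) ℂ} {P : Matrix (Fin n) (Fin n) ℂ} {lam : ℂ}
    {f : (Fin d₀ → Fin r) → (Fin d → Fin n) → ℚ} : IsDeRhamBetti K C₀ P lam f ↔
      ∃ w : Pool.Agent.Helper880_RB.Ten ℂ d₀ d r n, (∀ u v, w u v ∈ K) ∧
        Pool.Agent.Helper880_RB.gp C₀ P w = lam • Pool.Agent.Helper880_RB.tC f := by
  refine exists_congr fun w => and_congr Iff.rfl ⟨fun h => ?_, fun h x y => ?_⟩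
  · funext x y
    exact h x y
  · exact congrFun (congrFun h x) y

/-- the tensors of de Rham–Betti lines are invariant -/
theorem inv_of {n r : ℕ} {K : Subfield ℂ} {C₀ : Matrix (Fin r) (Fin r) ℂ} {Ω : Matrix (Fin n) (Fin n) ℂ}
    {Z : Matrix (Fin n) (Fin n) ℚ⟦X⟧} {x₀ m : ℕ} (hu : IsUnit (periods Ω Z m)) (hC₀ : IsUnit C₀)
    {𝒩 : Set (Matrix (Fin n) (Fin n) ℂ)} (h𝒩 : IsPerfectUnipotent Ω Z x₀ 𝒩)
    (hst : ∀ g : Fin 1 → Matrix (Fin n) (Fin n) ℂ, (∀ l, g l ∈ expGroup 𝒩) →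
      ∀ T : Set (Matrix (Fin r ⊕ (Fin n × Fin 1)) (Fin r ⊕ (Fin n × Fin 1)) ℂ), IsSubtorsor K T →
        total C₀ (fun _ : Fin 1 => periods Ω Z m) ∈ T → ∀ x ∈ T, total 1 g * x ∈ T)
    {d₀ d : ℕ} {lam : ℂ} {f : (Fin d₀ → Fin r) → (Fin d → Fin n) → ℚ} (hl : lam ≠ 0)
    (hf : IsDeRhamBetti K C₀ (periods Ω Z m) lam f) :
    ∀ X ∈ Submodule.span ℂ 𝒩, Pool.Agent.Helper880_RB.la X (Pool.Agent.Helper880_RB.tC f) = 0 := by
  open Pool.Agent.Helper880_RB in
  set P := periods Ω Z m with hP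
  have hker : ∀ (S : Set (Matrix (Fin n) (Fin n) ℂ)), (∀ N ∈ S, la N (tC f) = 0) →
      ∀ X ∈ Submodule.span ℂ S, la X (tC f) = 0 := by
    intro S hS X hX
    rw [← one_la]
    have h1 : Submodule.span ℂ S ≤ LinearMap.ker (one (fun _ : Fin d => (0 : Fin 1)) (tC f) 0) := by
      refine Submodule.span_le.2 fun N hN => ?_
      rw [SetLike.mem_coe, LinearMap.mem_ker, one_la]
      exact hS N hN
    exact LinearMap.mem_ker.1 (h1 hX)
  by_cases hf0 : f = 0
  · intro X _
    have h1 : tC f = 0 := by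
      funext u v
      show ((f u v : ℚ) : ℂ) = 0
      rw [hf0]
      exact Rat.cast_zero
    rw [h1]
    unfold la
    rw [map_zero]
  obtain ⟨w, hw, he⟩ := drb_eq.1 hf
  have htC : tC f ≠ 0 := by
    intro h1
    refine hf0 (funext fun u => funext fun v => ?_)
    have h2 : ((f u v : ℚ) : ℂ) = 0 := congrFun (congrFun h1 u) v
    exact Rat.cast_eq_zero.1 h2
  have hw0 : w ≠ 0 := by
    rintro rfl
    rw [gp_zero] at he
    exact (smul_ne_zero hl htC) he.symm
  have hPd := (Matrix.isUnit_iff_isUnit_det _).1 hu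
  have hC₀d := (Matrix.isUnit_iff_isUnit_det _).1 hC₀
  have hsub : IsSubtorsor K (LT w f) := ⟨LT_mul hw0, LT_pol K hw hf0⟩
  have hunit : IsUnit (total C₀ (fun _ : Fin 1 => P)) := by
    rw [Matrix.isUnit_iff_isUnit_det]
    unfold total
    rw [Matrix.det_fromBlocks_zero₂₁, Matrix.det_blockDiagonal]
    refine hC₀d.mul ?_
    rw [Finset.univ_unique, Finset.prod_singleton]
    exact hPd
  have hmem : total C₀ (fun _ : Fin 1 => P) ∈ LT w f := ⟨hunit, C₀, P, rfl, lam, he⟩
  have hscal : ∀ N ∈ 𝒩, ∃ c : ℂ, la N (tC f) = c • tC f := by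
    intro N hN
    refine scal_of fun s => ?_
    obtain ⟨-, a, b, hab, c, hc⟩ := hst (fun _ => NormedSpace.exp (s • N)) (fun _ => by
      rw [exp_nil (h𝒩.1 N hN).1]
      exact Submonoid.subset_closure ⟨N, hN, s, rfl⟩) _ hsub hmem _ hmem
    have h1 : total (1 : Matrix (Fin r) (Fin r) ℂ) (fun _ : Fin 1 => NormedSpace.exp (s • N)) * total C₀ (fun _ : Fin 1 => P) =
        total (1 * C₀) (fun _ : Fin 1 => NormedSpace.exp (s • N) * P) :=
      Pool.Agent.Helper880_RB.Tot_mul _ _ _ _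
    rw [h1] at hab
    obtain ⟨h2, h3⟩ := Pool.Agent.Helper880_RB.Tot_inj hab
    have h4 : NormedSpace.exp (s • N) * P = b := congrFun h3 0
    rw [← h2, ← h4, gp_mul, he, gp_smul] at hc
    refine ⟨lam⁻¹ * c, ?_⟩
    rw [← smul_smul, ← hc, smul_smul, inv_mul_cancel₀ hl, one_smul]
  refine hker 𝒩 fun N hN => ?_
  refine hker {C : Matrix (Fin n) (Fin n) ℂ | ∃ A ∈ 𝒩, ∃ B ∈ 𝒩, C = A * B - B * A} ?_ N (h𝒩.2 N hN)
  rintro _ ⟨A, hA, B, hB, rfl⟩
  exact scal_br (hscal A hA) (hscal B hB)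

/-- the values of the family -/
noncomputable def val {n : ℕ} (Z : Matrix (Fin n) (Fin n) ℚ⟦X⟧) (m : ℕ) : Matrix (Fin n) (Fin n) ℂ :=
  Matrix.of fun a j => ((∑' k : ℕ, ((coeff k (Z a j) : ℚ) : ℝ) * (1 / (m : ℝ)) ^ k : ℝ) : ℂ)

theorem periods_eq {n : ℕ} (Ω : Matrix (Fin n) (Fin n) ℂ) (Z : Matrix (Fin n) (Fin n) ℚ⟦X⟧) (m : ℕ) :
    periods Ω Z m = Ω * val Z m := rfl

theorem val_eq {n : ℕ} (Z : Matrix (Fin n) (Fin n) ℚ⟦X⟧) (m : ℕ) (a j : Fin n) :
    val Z m a j = Pool.Agent.Helper880_R3.ec (((1 / (m : ℚ) : ℚ)) : ℝ) (Pool.Agent.Helper880_RB.cx (Z a j)) := by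
  show ((∑' k : ℕ, ((coeff k (Z a j) : ℚ) : ℝ) * (1 / (m : ℝ)) ^ k : ℝ) : ℂ) = _
  unfold Pool.Agent.Helper880_R3.ec
  rw [Complex.ofReal_tsum]
  refine tsum_congr fun k => ?_
  rw [Pool.Agent.Helper880_RB.cx, PowerSeries.coeff_map, eq_ratCast]
  push_cast
  rfl

/-- convergence for large `m` -/
theorem conv {n : ℕ} {Z : Matrix (Fin n) (Fin n) ℚ⟦X⟧} (hZ : ∀ i j, GCond (Z i j)) :
    ∃ m₀ : ℕ, ∀ m, m₀ ≤ m → ∀ a b,
      Pool.Agent.Helper880_R3.Cc (((1 / (m : ℚ) : ℚ)) : ℝ) (Pool.Agent.Helper880_RB.cx (Z a b)) := by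
  choose C hC _ using hZ
  have h0 : ∀ i j, 0 ≤ C i j := by
    intro i j
    have h1 := hC i j 0
    rw [zero_add, pow_one] at h1
    exact (abs_nonneg _).trans h1
  obtain ⟨m₀, hm₀⟩ := exists_nat_ge (2 * ∑ p : Fin n × Fin n, C p.1 p.2)
  refine ⟨m₀ + 1, fun m hm a b => ?_⟩
  have hm1 : (0 : ℝ) < m := by
    have : 0 < m := by omega
    exact_mod_cast this
  have hm2 : 2 * C a b ≤ m := by
    have h1 : C a b ≤ ∑ p : Fin n × Fin n, C p.1 p.2 :=
      Finset.single_le_sum (f := fun p : Fin n × Fin n => C p.1 p.2) (fun p _ => h0 p.1 p.2) (Finset.mem_univ (a, b))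
    have h2 : (m₀ : ℝ) ≤ m := by exact_mod_cast (by omega : m₀ ≤ m)
    linarith
  have hsum : Summable fun k : ℕ => C a b * (1 / 2 : ℝ) ^ k :=
    (summable_geometric_of_lt_one (by norm_num) (by norm_num)).mul_left _
  refine Summable.of_nonneg_of_le (fun k => norm_nonneg _) (fun k => ?_) hsum
  rw [Pool.Agent.Helper880_RB.cx, PowerSeries.coeff_map, norm_mul, norm_pow, Complex.norm_real, Real.norm_eq_abs, eq_ratCast]
  have h1 : ‖((coeff k (Z a b) : ℚ) : ℂ)‖ = |((coeff k (Z a b) : ℚ) : ℝ)| := by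
    have h2 : ((coeff k (Z a b) : ℚ) : ℂ) = (((coeff k (Z a b) : ℚ) : ℝ) : ℂ) := by push_cast; rfl
    rw [h2, Complex.norm_real, Real.norm_eq_abs]
  have h3 : |(((1 / (m : ℚ) : ℚ)) : ℝ)| = 1 / (m : ℝ) := by
    push_cast
    exact abs_of_pos (by positivity)
  rw [h1, h3]
  calc |((coeff k (Z a b) : ℚ) : ℝ)| * (1 / (m : ℝ)) ^ k ≤ (C a b) ^ (k + 1) * (1 / (m : ℝ)) ^ k :=
        mul_le_mul_of_nonneg_right (hC a b k) (by positivity)
    _ = C a b * (C a b / m) ^ k := by
        rw [pow_succ, div_pow, div_pow, one_pow]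
        ring
    _ ≤ C a b * (1 / 2 : ℝ) ^ k := by
        refine mul_le_mul_of_nonneg_left (pow_le_pow_left₀ (div_nonneg (h0 a b) hm1.le) ?_ _) (h0 a b)
        rw [div_le_iff₀ hm1]
        linarith

theorem same_of {n r : ℕ} {K : Subfield ℂ} {C₀ : Matrix (Fin r) (Fin r) ℂ} {Ω : Matrix (Fin n) (Fin n) ℂ}
    {Z : Matrix (Fin n) (Fin n) ℚ⟦X⟧} {x₀ m : ℕ} (hC₀ : IsUnit C₀)
    (hc : ∀ a b, Pool.Agent.Helper880_R3.Cc (((1 / (m : ℚ) : ℚ)) : ℝ) (Pool.Agent.Helper880_RB.cx (Z a b)))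
    (h : Full K C₀ Ω Z x₀ fun _ : Fin 1 => m) : SameLines K C₀ Ω Z x₀ m := by
  have hu : IsUnit (periods Ω Z m) := h.1 0
  have hu' := hu
  rw [periods_eq] at hu'
  have hdet := (Matrix.isUnit_iff_isUnit_det _).1 hu'
  rw [Matrix.det_mul] at hdet
  have hΩ : IsUnit Ω.det := isUnit_of_mul_isUnit_left hdet
  have hV : IsUnit (val Z m).det := isUnit_of_mul_isUnit_right hdet
  have hC₀d := (Matrix.isUnit_iff_isUnit_det _).1 hC₀
  intro 𝔤 hr hRI 𝒩 h𝒩 hspan d₀ d lam f hl
  have key : (Invariant (conjugate Ω 𝔤) f) →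
      (IsDeRhamBetti K C₀ (periods Ω Z m) lam f ↔ IsDeRhamBetti K C₀ Ω lam f) := by
    intro hinv
    rw [drb_eq, drb_eq, periods_eq]
    refine Pool.Agent.Helper880_RB.line_iff (rat_eq hr) (fun g hg => ?_) hC₀d hΩ hV K lam f fun X hX => ?_
    · exact Pool.Agent.Helper880_RB.ri_eval (u₀ := 1 / (m : ℚ)) hRI hc (fun a b => val_eq Z m a b) hV g hg
    · funext x y
      rw [Pool.Agent.Helper880_RB.la_apply]
      exact hinv _ ⟨X, hX, rfl⟩ x y
  constructor
  · intro hf
    have h1 : Invariant (conjugate Ω 𝔤) f := by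
      intro X hX x y
      rw [hspan] at hX
      have h2 := inv_of hu hC₀ h𝒩 (fun g hg T hT hmem => h.2.1 𝒩 h𝒩 g hg T hT hmem) hl hf X hX
      have h3 := congrFun (congrFun h2 x) y
      rw [Pool.Agent.Helper880_RB.la_apply] at h3
      exact h3
    exact ⟨(key h1).1 hf, h1⟩
  · rintro ⟨h1, h2⟩
    exact (key h2).2 h1

open Classical in
/-- **The theorem.** The number `x₀` depends only on the family, `M`, `B`, `c` only on the family and on `D, r`. -/
theorem result (n : ℕ) (f : Polynomial ℚ) (A : Matrix (Fin n) (Fin n) (Polynomial ℚ)) (Z W : Matrix (Fin n) (Fin n) ℚ⟦X⟧)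
    (hf : f.coeff 0 ≠ 0)
    (hode : ∀ i j, (f : ℚ⟦X⟧) * PowerSeries.derivative ℚ (Z i j) = ∑ k, Z i k * (A k j : ℚ⟦X⟧))
    (hW : W * Z = 1) (hGZ : ∀ i j, GCond (Z i j)) (hGW : ∀ i j, GCond (W i j)) :
    ∃ x₀ : ℕ, ∀ D r : ℕ,
      (∃ M : ℕ, ∃ c : ℝ, 0 < c ∧ ∀ Ω : Matrix (Fin n) (Fin n) ℂ, IsUnit Ω →
        ∀ K : Subfield ℂ, FiniteDimensional ℚ K → Module.finrank ℚ K ≤ D →
        ∀ C₀ : Matrix (Fin r) (Fin r) ℂ, IsUnit C₀ → ∀ N : ℕ, 1 ≤ N →
        ∃ S : Finset ℕ, S.card ≤ M ∧ ∀ m : ℕ, N ≤ m → (m : ℝ) ≤ N + (N : ℝ) ^ c → m ∉ S → SameLines K C₀ Ω Z x₀ m) ∧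
      ∃ c : ℝ, 0 < c ∧ ∃ B : ℝ, ∀ Ω : Matrix (Fin n) (Fin n) ℂ, IsUnit Ω →
        ∀ K : Subfield ℂ, FiniteDimensional ℚ K → Module.finrank ℚ K ≤ D →
        ∀ C₀ : Matrix (Fin r) (Fin r) ℂ, IsUnit C₀ → ∀ T : ℕ, 1 ≤ T →
        (((Finset.Icc 1 T).filter fun m => ¬ SameLines K C₀ Ω Z x₀ m).card : ℝ) ≤ B * (T : ℝ) ^ (1 - c) := by
  obtain ⟨x₀, G, hmain⟩ := Pool.Agent.Results.MP_470b79_ag.MonodromyTorsors.result n f A Z W hf hode hW hGZ hGW
  obtain ⟨m₀, hm₀⟩ := conv hGZ
  refine ⟨x₀, fun D r => ?_⟩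
  obtain ⟨⟨M, c₁, hc₁, hwin⟩, c, hc, B, hcount⟩ := hmain 1 D r
  refine ⟨⟨M + m₀, c₁, hc₁, fun Ω hΩ K hK hKD C₀ hC₀ N hN => ?_⟩, min c 1, lt_min hc one_pos, max B 0 + (m₀ + 2),
    fun Ω hΩ K hK hKD C₀ hC₀ T hT => ?_⟩
  · obtain ⟨S, hS, hS'⟩ := hwin Ω hΩ K hK hKD C₀ N hN
    refine ⟨S ∪ Finset.range m₀, ?_, fun m hm1 hm2 hmS => ?_⟩
    · refine (Finset.card_union_le _ _).trans ?_
      rw [Finset.card_range]
      omega
    · rw [Finset.mem_union, not_or, Finset.mem_range, not_lt] at hmS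
      exact same_of hC₀ (hm₀ m hmS.2) (hS' (fun _ => m) (fun i j hij => absurd (Subsingleton.elim i j) hij)
        fun _ => ⟨hm1, hm2, hmS.1⟩)
  · have hT1 : (1 : ℝ) ≤ T := by exact_mod_cast hT
    have h1 := hcount Ω hΩ K hK hKD C₀ T hT
    have h2 : ((Finset.Icc 1 T).filter fun m => ¬ SameLines K C₀ Ω Z x₀ m).card ≤
        ((Fintype.piFinset fun _ : Fin 1 => Finset.Icc 2 T).filter fun m => ¬ Full K C₀ Ω Z x₀ m).card + (m₀ + 1 + 1) := by
      have h3 : ((Finset.Icc 1 T).filter fun m => ¬ SameLines K C₀ Ω Z x₀ m) ⊆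
          (((Fintype.piFinset fun _ : Fin 1 => Finset.Icc 2 T).filter fun m => ¬ Full K C₀ Ω Z x₀ m).image fun t => t 0) ∪
            Finset.range (m₀ + 1 + 1) := by
        intro m hm
        rw [Finset.mem_filter, Finset.mem_Icc] at hm
        rw [Finset.mem_union, Finset.mem_range, Finset.mem_image]
        by_cases hlt : m < m₀ + 1 + 1
        · exact Or.inr hlt
        · refine Or.inl ⟨fun _ => m, Finset.mem_filter.2 ⟨Fintype.mem_piFinset.2 fun _ => Finset.mem_Icc.2 ⟨by omega, hm.1.2⟩,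
            fun hF => hm.2 (same_of hC₀ (hm₀ m (by omega)) hF)⟩, rfl⟩
      refine (Finset.card_le_card h3).trans ((Finset.card_union_le _ _).trans ?_)
      rw [Finset.card_range]
      exact Nat.add_le_add_right Finset.card_image_le _
    have h3 : (((Finset.Icc 1 T).filter fun m => ¬ SameLines K C₀ Ω Z x₀ m).card : ℝ) ≤
        (((Fintype.piFinset fun _ : Fin 1 => Finset.Icc 2 T).filter fun m => ¬ Full K C₀ Ω Z x₀ m).card : ℝ) +
          ((m₀ : ℝ) + 2) := by
      have h4 : (((Finset.Icc 1 T).filter fun m => ¬ SameLines K C₀ Ω Z x₀ m).card : ℝ) ≤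
        ((((Fintype.piFinset fun _ : Fin 1 => Finset.Icc 2 T).filter fun m => ¬ Full K C₀ Ω Z x₀ m).card + (m₀ + 1 + 1) : ℕ) :
          ℝ) := by exact_mod_cast h2
      refine h4.trans (le_of_eq ?_)
      push_cast
      ring
    have hp : (T : ℝ) ^ (((1 : ℕ) : ℝ) - c) ≤ (T : ℝ) ^ (1 - min c 1) :=
      Real.rpow_le_rpow_of_exponent_le hT1 (by push_cast; linarith [min_le_left c 1])
    have hp1 : (1 : ℝ) ≤ (T : ℝ) ^ (1 - min c 1) := Real.one_le_rpow hT1 (by linarith [min_le_right c 1])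
    have hp0 : (0 : ℝ) ≤ (T : ℝ) ^ (((1 : ℕ) : ℝ) - c) := Real.rpow_nonneg (by linarith) _
    have h5 : B * (T : ℝ) ^ (((1 : ℕ) : ℝ) - c) ≤ max B 0 * (T : ℝ) ^ (1 - min c 1) :=
      mul_le_mul (le_max_left _ _) hp hp0 (le_max_right _ _)
    have h6 : ((m₀ : ℝ) + 2) ≤ ((m₀ : ℝ) + 2) * (T : ℝ) ^ (1 - min c 1) := by
      have h7 : (0 : ℝ) ≤ (m₀ : ℝ) + 2 := by positivity
      nlinarith
    rw [add_mul]
    exact h3.trans (add_le_add (h1.trans h5) h6)

end Pool.Agent.Results.MP_470b79_ag.FromOneFibre
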