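import Pool.Agent.H621.CY.Grp
import Pool.Agent.R917.OM.Grp

set_option autoImplicit false

/-!
# The de Rham-Betti conjecture for the product of any variety with products of elliptic curves

Let `M₀` be any object with a de Rham-Betti realization over `ℚ̄`, for example the motive of any smooth
projective variety `Z`, or any mixed motive. Only its comparison isomorphism is used: an invertible
complex matrix `C` of size `r`, about which nothing is assumed. The torsor `Ω^dRB` of `M₀ ⊕ H_1(A)`,
`A` an abelian variety over `ℚ̄`, is a torsor over `ℚ̄` under the algebraic group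
`G^dRB(M₀ ⊕ H_1(A))` over `ℚ`, and it contains the comparison isomorphism `C ⊕ (periods of A)`.

**Theorem.** There are `m ≤ r / 2` elliptic curves `X_1, ..., X_m` (which depend on `C` only) such that
the following holds. Let `A` be a product of elliptic curves over `ℚ̄`, **with or without complex
multiplication**, in any number, isogenous or not, or any abelian variety which is a factor of such a
product up to isogeny; assume that no `X_k` is isogenous to one of these elliptic curves. Then every
algebraic group `G ⊆ GL_{r + 2 dim A}` over `ℚ`, with a torsor over `ℚ̄` which contains the matrix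
`C ⊕ (periods of A)`, contains `1 × Hg(A)`, `Hg(A)` the Hodge group of `A`.

More generally let `C` be block triangular, with blocks of sizes `r_l` (`M₀` has a filtration, for
example the weight filtration of a mixed motive). Then `m ≤ ∑ l, ⌊r_l / 2⌋`. In particular there are
no exceptional curves if `M₀` is a mixed Tate motive, or a successive extension of objects of rank
one.

Consequences for the conjecture. Replace `M₀` by `M₀ ⊕ ℚ(1)`; this does not change the bound. For an
André motive `M₀` the group `G^And(M₀ ⊕ ℚ(1) ⊕ H_1(A))` is contained in the fibre product of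
`G^And(M₀ ⊕ ℚ(1))` and of the Mumford-Tate group `MT(A)` over `𝔾_m`. The group `G^dRB` of
`M₀ ⊕ ℚ(1) ⊕ H_1(A)` contains `1 × Hg(A)` by the theorem, and it is mapped onto
`G^dRB(M₀ ⊕ ℚ(1))`. So, for all `A` as in the theorem, `Ω^dRB = Ω^And` holds for
`M₀ ⊕ ℚ(1) ⊕ H_1(A)` (and then for all motives in the tensor category generated by it) **if and only
if** it holds for `M₀ ⊕ ℚ(1)`; and the torsor `Ω^dRB` of `M₀ ⊕ ℚ(1) ⊕ H_1(A)` is always the fibre product
of the torsors of `M₀ ⊕ ℚ(1)` and `H_1(A)`. For example this holds for `Z × A`, `Z` a hyperkähler variety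
for which the conjecture is known; there are at most `rk(M₀) / 2` exceptional isogeny classes of elliptic
curves.

The bound is sharp: for `M₀ = H_1(X_1) ⊕ ... ⊕ H_1(X_m)`, `r = 2 m`, one has `Hg ⊄ G` for `A = X_k`, the
group of the graph of an isomorphism.

For `r = 0` this is known: the equality `Ω^dRB = Ω^And` for products of elliptic curves is due to Kreutz,
Shen and Vial (without complex multiplication), and contained in the file `OneMotivesMumfordTate` of
the problem `MP_5d33ca_ag` (products of arbitrary elliptic curves). For elliptic curves without complex multiplication, and abelian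
varieties with real or quaternion multiplication of maximal rank, the relative theorem is in the file
`BoundedCapture` of the problem `MP_77d3f5_ag`, the method of which (a theorem of Goursat type for
`sl_2`) does not apply to the tori of elliptic curves with complex multiplication. The bound for the
rank for one `A`, without the independence of the exceptional curves of `A`, is in the file `RankBound`
of the problem `MP_57341d_ag`.

## Proof

1. For an algebraic group `G` consider the Lie algebra `𝔭` of all triples `(x, t, y)` such that `x` is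
block triangular, `(x, y) ∈ Lie G` and `y - t / 2` is in the Lie algebra `𝔤 ⊗ ℂ` of the Hodge group of
`A`. It is defined over `ℚ`, contains the rational components of the logarithmic derivatives of
`(C, 2 π i, periods of A)`, and is closed under replicas (a theorem of Chevalley): if `z ∈ 𝔭`, `σ : ℂ → ℂ` is
additive and the polynomial `Q` is congruent to `σ(a)` modulo `(X - a)^N` for all eigenvalues `a` of
`z`, then `Q(z) ∈ 𝔭` (`LQ`, `PtQ`).

2. An elliptic curve `E` is exceptional (`Bad`) if there is such a `𝔭` for `A = E` which does not contain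
`(0, 0, y)` for any rational `y ≠ 0` in the Lie algebra of `Hg(E)`. If `E_1, ..., E_m` are exceptional and
not isogenous, then the triples `(x, t, y)`, `y = (y_1, ..., y_m)`, with all `(x, t, y_i)` in the given
Lie algebras, form such a `𝔭` for the product. It contains the rational components of the logarithmic
derivatives, and by the theorem of Wüstholz its image in the Lie algebra `𝔤` of the Hodge group of the
product has the commutant `End`. As the `E_i` are not isogenous, this image is `𝔤`: the product is
determined (`det_of_CMS`). So the complex structure `J_i` of each `E_i` has a lift `(x_i, *, J_i)` in `𝔭`,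
and with replicas one finds commuting diagonalizable lifts with real eigenvalues, and
linearly independent weights modulo the elements `(x, 0, 0)`. This shows
`m ≤ ∑ l, ⌊r_l / 2⌋` (`bound`).

3. Let `X_1, ..., X_m` be a maximal system of exceptional curves which are not isogenous. Let `B` be a
product of curves which are not isogenous to an `X_k`, and let `𝔭` be as in 1. for `B`. The elements
`(0, 0, y)` of `𝔭`, `y` rational, form an ideal of `𝔤` which is closed under replicas. For each factor
`E` of `B` it is mapped to a nonzero ideal of the Lie algebra of the Hodge group of `E`, since `E` is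
not exceptional. It follows that the ideal is everything (`ideal_top'`): for the curves without
complex multiplication since `sl_2` is simple, and for the curves with complex multiplication by
different fields `ℚ(√-d_i)` since the numbers `√-d_i` are linearly independent over `ℚ` and the ideal
is closed under replicas. So `(0, 0, J) ∈ 𝔭`, `J` the complex structure of `B`. The same follows for
the factors of `B` (`Pw.fac_mem`), and one takes the exponential map.
-/

open Module Matrix Pool.Agent.Y102 Pool.Agent.W516.DR Pool.Agent.H204R3.GP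

noncomputable section

namespace Pool.Agent.Results.MP_470b79_ag.ProductsWithEllipticCurves

/-! ### Homomorphisms of abelian varieties -/

section Hom

variable {g g' : ℕ}

/-- `f` is a homomorphism (up to isogeny) of the complex tori: it is given by a complex linear map of
the tangent spaces. -/
def IsComplexHomomorphism (A : AbVar g) (B : AbVar g') (f : A.H1 →ₗ[ℚ] B.H1) : Prop :=
  ∃ F : (Fin g → ℂ) →ₗ[ℂ] (Fin g' → ℂ), ∀ w, F (A.per w) = B.per (f w)

/-- `f` is a homomorphism (up to isogeny) from `A` to `B` over `ℚ̄`: it is given by a linear map of the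
tangent spaces, and the pull backs of the algebraic differential forms are algebraic. -/
def IsHomomorphism (A : AbVar g) (B : AbVar g') (f : A.H1 →ₗ[ℚ] B.H1) : Prop :=
  IsComplexHomomorphism A B f ∧
    ∃ e : Fin g' ⊕ Fin g' → Fin g ⊕ Fin g → QBar,
      ∀ i w, B.dR i (f w) = ∑ j, algebraMap QBar ℂ (e i j) * A.dR j w

/-- The complex tori `A` and `B` have no nonzero homomorphisms from `A` to `B`. For elliptic curves:
they are not isogenous. -/
def NoHomomorphisms (A : AbVar g) (B : AbVar g') : Prop :=
  ∀ f : A.H1 →ₗ[ℚ] B.H1, IsComplexHomomorphism A B f → f = 0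

/-- A system of elliptic curves over `ℚ̄`. It is a well known fact that isogenies between elliptic
curves over `ℚ̄` are defined over `ℚ̄`. -/
def IsogeniesAreAlgebraic {n : ℕ} (E : Fin n → AbVar 1) : Prop :=
  ∀ i j, NoHomomorphisms (E i) (E j) ∨ ∃ f, IsHomomorphism (E i) (E j) f ∧ f ≠ 0

/-- `A` is a direct factor, up to isogeny, of the product of the elliptic curves `E_k`: there are
homomorphisms `a_k : A → E_k` and `b_k : E_k → A` such that `∑ b_k a_k = 1`. -/
def IsFactorOfProduct {n : ℕ} (E : Fin n → AbVar 1) (A : AbVar g) : Prop :=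
  ∃ (a : ∀ k, A.H1 →ₗ[ℚ] (E k).H1) (b : ∀ k, (E k).H1 →ₗ[ℚ] A.H1),
    (∀ k, IsHomomorphism A (E k) (a k)) ∧ (∀ k, IsHomomorphism (E k) A (b k)) ∧
      ∑ k, b k ∘ₗ a k = LinearMap.id

end Hom

variable {g : ℕ} (A : AbVar g)

/-- The complex matrices which act on `H_1(A, ℂ) = ℂ^(2g)`. -/
abbrev MatC (g : ℕ) : Type := Matrix (Fin (2 * g)) (Fin (2 * g)) ℂ

/-! ### Algebraic groups which contain the periods -/

/-- The basis of the Betti realization of `M₀ ⊕ H_1(A)`. -/
abbrev Betti (r g : ℕ) : Type := Fin r ⊕ Fin (2 * g)

/-- The basis of the de Rham realization of `M₀ ⊕ H_1(A)`. -/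
abbrev DeRham (r g : ℕ) : Type := Fin r ⊕ (Fin g ⊕ Fin g)

/-- The comparison isomorphism of `M₀ ⊕ H_1(A)`: the matrix `C` and the periods and quasi-periods of
the abelian variety. -/
def periodMatrix {r : ℕ} (C : Matrix (Fin r) (Fin r) ℂ) : Matrix (Betti r g) (DeRham r g) ℂ :=
  fromBlocks C 0 0 (Matrix.of fun j k => Sum.elim (A.lam j) (A.η j) k)

/-- A subgroup of `GL_R(ℂ)` defined by polynomials with rational coefficients. -/
def IsAlgebraicSubgroup {R : Type} [Fintype R] [DecidableEq R] (G : Subgroup (GL R ℂ)) : Prop :=
  ∃ I : Set (MvPolynomial (R × R) ℚ), ∀ x : GL R ℂ, x ∈ G ↔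
    ∀ p ∈ I, MvPolynomial.aeval (fun b : R × R => (x : Matrix R R ℂ) b.1 b.2) p = 0

/-- The comparison isomorphism `c` is an element of a torsor `G · T⁻¹` of `G`, defined over the
algebraic numbers: `T` is a matrix with algebraic entries (an isomorphism between the Betti side and
the de Rham side) such that `c T ∈ G`. -/
def ContainsPeriods {r : ℕ} (C : Matrix (Fin r) (Fin r) ℂ) (G : Subgroup (GL (Betti r g) ℂ)) :
    Prop := ∃ T : Matrix (DeRham r g) (Betti r g) ℂ, (∀ i j, IsAlgebraic ℚ (T i j)) ∧
    ∃ x ∈ G, (x : Matrix (Betti r g) (Betti r g) ℂ) = periodMatrix A C * T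

/-- The matrix of the multiplication by the complex number `z` on the tangent space
`H_1(A, ℝ) = ℂ ^ g`, in the basis of the lattice: the Hodge structure. -/
def hodge (z : ℂ) : MatC g := Matrix.of fun i j => ((A.lam.repr (z • A.lam i) j : ℝ) : ℂ)

/-- The Hodge group: the smallest algebraic group over `ℚ` which contains the image of the circle
under the Hodge structure. -/
def hodgeGroup : Subgroup (GL (Fin (2 * g)) ℂ) :=
  sInf {G | IsAlgebraicSubgroup G ∧ ∀ z : ℂ, ‖z‖ = 1 → ∃ x ∈ G, (x : MatC g) = hodge A z}

/-! ### Proofs -/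

variable {A}

/-- the group of the block matrices -/
def blk (r g : ℕ) : MatC g →* Matrix (Betti r g) (Betti r g) ℂ where
  toFun x := fromBlocks 1 0 0 x
  map_one' := fromBlocks_one
  map_mul' x y := by
    rw [fromBlocks_multiply]
    simp only [Matrix.mul_zero, Matrix.zero_mul, add_zero, zero_add, Matrix.one_mul]

/-- the entries of the block matrices -/
def ent (r g : ℕ) (b : Betti r g × Betti r g) : MvPolynomial (Fin (2 * g) × Fin (2 * g)) ℚ :=
  match b with
  | (Sum.inl i, Sum.inl j) => if i = j then 1 else 0
  | (Sum.inr i, Sum.inr j) => MvPolynomial.X (i, j)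
  | _ => 0

theorem aeval_ent {r : ℕ} (x : MatC g) (b : Betti r g × Betti r g) :
    MvPolynomial.aeval (fun c : Fin (2 * g) × Fin (2 * g) => x c.1 c.2) (ent r g b) =
      blk r g x b.1 b.2 := by
  obtain ⟨i | i, j | j⟩ := b
  · change MvPolynomial.aeval _ (if i = j then 1 else 0) = (1 : Matrix (Fin r) (Fin r) ℂ) i j
    rw [Matrix.one_apply]
    split_ifs
    · exact map_one _
    · exact map_zero _
  · exact map_zero _
  · exact map_zero _
  · exact MvPolynomial.aeval_X _ _

theorem isAlg_comap {r : ℕ} {G : Subgroup (GL (Betti r g) ℂ)} (hG : IsAlgebraicSubgroup G) :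
    IsAlgebraicSubgroup (G.comap (Units.map (blk r g))) := by
  obtain ⟨I, hI⟩ := hG
  refine ⟨(fun p => MvPolynomial.bind₁ (ent r g) p) '' I, fun x => ?_⟩
  rw [Subgroup.mem_comap, hI]
  have key : ∀ p : MvPolynomial (Betti r g × Betti r g) ℚ,
      MvPolynomial.aeval (fun c : Fin (2 * g) × Fin (2 * g) => (x : MatC g) c.1 c.2)
        (MvPolynomial.bind₁ (ent r g) p) = MvPolynomial.aeval (fun b : Betti r g × Betti r g =>
          ((Units.map (blk r g) x : GL (Betti r g) ℂ) : Matrix (Betti r g) (Betti r g) ℂ)
            b.1 b.2) p := by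
    intro p
    rw [MvPolynomial.aeval_bind₁]
    congr 2
    funext b
    exact aeval_ent _ b
  constructor
  · rintro h _ ⟨p, hp, rfl⟩
    rw [key]
    exact h p hp
  · intro h p hp
    rw [← key]
    exact h _ ⟨p, hp, rfl⟩

theorem periods_of {r : ℕ} {C : Matrix (Fin r) (Fin r) ℂ} {G : Subgroup (GL (Betti r g) ℂ)}
    (hP : ContainsPeriods A C G) : ∃ T T' : Matrix (Betti r g) (Betti r g) ℂ, T * T' = 1 ∧
      (∀ i j, T' i j ∈ Pool.Agent.R917.QA) ∧ fromBlocks C 0 0 (Pool.Agent.R917.PM A) * T ∈
        {M : Matrix (Betti r g) (Betti r g) ℂ | ∃ x ∈ G, (x : Matrix _ _ ℂ) = M} := by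
  obtain ⟨T, hT, x, hx, hxT⟩ := hP
  let e : DeRham r g ≃ Betti r g := Equiv.sumCongr (Equiv.refl _) (Pool.Agent.R917.eqv g)
  have h1 : fromBlocks C 0 0 (Pool.Agent.R917.PM A) = (periodMatrix A C).submatrix id e.symm := by
    ext i j
    rcases i with i | i <;> rcases j with j | j
    · rfl
    · rfl
    · rfl
    · obtain ⟨k, rfl⟩ := (Pool.Agent.R917.eqv g).surjective j
      rw [fromBlocks_apply₂₂, Pool.Agent.R917.PM_apply, Matrix.submatrix_apply]
      have h2 : e.symm (Sum.inr ((Pool.Agent.R917.eqv g) k)) = Sum.inr k := by
        change Sum.inr ((Pool.Agent.R917.eqv g).symm ((Pool.Agent.R917.eqv g) k)) = _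
        rw [Equiv.symm_apply_apply]
      rw [h2]
      change _ = Sum.elim (A.lam i) (A.η i) k
      rcases k with k | k
      · change A.per (Pi.single i 1) k = _
        unfold AbVar.per
        rw [Fintype.linearCombination_apply_single, one_smul]
        rfl
      · change A.eta (Pi.single i 1) k = _
        unfold AbVar.eta
        rw [Fintype.linearCombination_apply_single, one_smul]
        rfl
  have h2 : fromBlocks C 0 0 (Pool.Agent.R917.PM A) * T.submatrix e.symm id =
      periodMatrix A C * T := by
    rw [h1, Matrix.submatrix_mul_equiv, Matrix.submatrix_id_id]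
  have h3 : (T.submatrix e.symm id).det ≠ 0 := by
    intro h0
    have h3 : (x : Matrix (Betti r g) (Betti r g) ℂ).det = 0 := by
      rw [hxT, ← h2, Matrix.det_mul, h0, mul_zero]
    exact (Matrix.GeneralLinearGroup.det x).ne_zero h3
  obtain ⟨T', h6, h7⟩ := Pool.Agent.R917.OM.alg_inv' (T := T.submatrix e.symm id)
    (fun i j => hT _ _) h3
  exact ⟨_, T', h6, h7, x, hx, by rw [hxT, h2]⟩

theorem isHom {g' : ℕ} {A : AbVar g} {B : AbVar g'} {f : A.H1 →ₗ[ℚ] B.H1}
    (h : IsHomomorphism A B f) : Pool.Agent.H621.BC.IsHom A B f := h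

/-- **Theorem.** Let `C` be an invertible complex matrix of size `r`, with zeros below the blocks
given by `lev`. There are `m ≤ ∑ l, ⌊r_l / 2⌋` elliptic curves `X_k` such that for all systems of
elliptic curves `E_1, ..., E_n`, with or without complex multiplication, none of which is isogenous to
an `X_k`, and all abelian varieties `A` which are factors of the product of the `E_i`, every algebraic
group over `ℚ` with a torsor over `ℚ̄` which contains the matrix `C ⊕ (periods of A)` contains `1 × x`
for all elements `x` of the Hodge group of `A`. -/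
theorem result (r K : ℕ) (C : Matrix (Fin r) (Fin r) ℂ) (hC : IsUnit C.det)
    (lev : Fin r → Fin K) (hlev : ∀ i j, lev j < lev i → C i j = 0) :
    ∃ (m : ℕ) (X : Fin m → AbVar 1), m ≤ ∑ l : Fin K, Fintype.card {i // lev i = l} / 2 ∧
      ∀ (n : ℕ) (E : Fin n → AbVar 1), IsogeniesAreAlgebraic E →
        (∀ k i, NoHomomorphisms (X k) (E i)) →
          ∀ (g : ℕ) (A : AbVar g), IsFactorOfProduct E A →
            ∀ G : Subgroup (GL (Betti r g) ℂ), IsAlgebraicSubgroup G → ContainsPeriods A C G →
              ∀ x ∈ hodgeGroup A, ∃ y ∈ G,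
                (y : Matrix (Betti r g) (Betti r g) ℂ) = fromBlocks 1 0 0 (x : MatC g) := by
  classical
  have h1 : C * C⁻¹ = 1 := Matrix.mul_nonsing_inv _ hC
  have hB : Pool.Agent.H621.BC.BT lev C := hlev
  have hB' : Pool.Agent.H621.BC.BT lev C⁻¹ := by
    have hBT : C.BlockTriangular lev := fun i j hij => hlev i j hij
    let : Invertible C := Matrix.invertibleOfIsUnitDet C hC
    have h2 := Matrix.blockTriangular_inv_of_blockTriangular hBT
    exact fun i j hij => h2 hij
  obtain ⟨m, X, hm, hX⟩ := Pool.Agent.H621.CY.exists_max hB hB'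
  refine ⟨m, X, hm, fun n E halg hE g A hA G hG hGP => ?_⟩
  obtain ⟨a, b, ha, hb, hs⟩ := hA
  obtain ⟨W⟩ := Pool.Agent.H621.CY.exists_Pw E
  have hF := Pool.Agent.H621.CY.fac_of W (fun k => isHom (ha k)) (fun k => isHom (hb k)) hs
  have halg' : ∀ i j, ¬ Pool.Agent.H621.CY.NoHom (E i) (E j) →
      ∃ φ : (E i).H1 →ₗ[ℚ] (E j).H1, Pool.Agent.H621.BC.IsHom (E i) (E j) φ ∧ φ ≠ 0 := by
    intro i j hij
    rcases halg i j with h2 | ⟨f, h2, h3⟩
    · exact absurd h2 hij
    · exact ⟨f, isHom h2, h3⟩
  obtain ⟨T, T', hT, hT', hpt⟩ := periods_of hGP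
  have hgrp := Pool.Agent.R917.algGrp_of hG
  have hP := Pool.Agent.H621.CY.PG_ptq (A := A) (lev := lev) hgrp h1 hB hB' hT hT' hpt
  have hmem := W.fac_mem halg' hB hB' (fun i => hX (E i) fun k => hE k i) hF hP
  have hle : hodgeGroup A ≤ G.comap (Units.map (blk r g)) := by
    refine sInf_le ⟨isAlg_comap hG, fun z hz => ?_⟩
    obtain ⟨y, hy, hyM⟩ := Pool.Agent.H621.CY.PG_hodge hgrp hmem hz
    have hz0 : z ≠ 0 := by
      rintro rfl
      rw [norm_zero] at hz
      exact zero_ne_one hz
    let x : GL (Fin (2 * g)) ℂ := ⟨Pool.Agent.R917.hm A z, Pool.Agent.R917.hm A z⁻¹, by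
      rw [← Pool.Agent.R917.hm_mul, mul_inv_cancel₀ hz0, Pool.Agent.R917.hm_one], by
      rw [← Pool.Agent.R917.hm_mul, inv_mul_cancel₀ hz0, Pool.Agent.R917.hm_one]⟩
    refine ⟨x, ?_, rfl⟩
    rw [Subgroup.mem_comap]
    have hxy : Units.map (blk r g) x = y := by
      apply Units.ext
      rw [hyM]
      rfl
    rw [hxy]
    exact hy
  intro x hx
  exact ⟨_, hle hx, rfl⟩

end Pool.Agent.Results.MP_470b79_ag.ProductsWithEllipticCurves
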